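import Mathlib
import Pool.Agent.X147.SetF

set_option autoImplicit false

/-! # MP_7297ca_co, Q1: shifted `(k, n)`-setups

Definitions used (in `Pool.Agent.X147.SP`): `verts n z` is the vertex set of the regular `n`-gon
centred at `0` having `z` as a vertex; `IsMarkedBasicSetup k n A` says that the regular `n`-gons
`conv (verts n (A i))`, `i : Fin k`, have side `1`, that all their vertices form a regular
`k n`-gon, and that the marked vertices `A i` form a regular `k`-gon; `shiftedUnion n A ε` is the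
union of the polygons `ε A i + conv (verts n (A i))`; `ratioOf U` is the one-dimensional Hausdorff
measure of the boundary of `U` divided by its area. -/

open Pool.Agent.X147.SP

namespace Pool.Agent.Results.MP_7297ca_co.ShiftedRatio

/-- The ratio of a shifted `(k, n)`-setup exceeds `ρ_n`. -/
def Exceeds (k n : ℕ) : Prop :=
  ∀ A : Fin k → ℂ, IsMarkedBasicSetup k n A →
    ∃ ε₀ : ℝ, 0 < ε₀ ∧ ∀ ε : ℝ, 0 < ε → ε < ε₀ →
      4 * Real.tan (Real.pi / n) < ratioOf (shiftedUnion n A ε)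

theorem result (k n : ℕ) (hk : 1 ≤ k) (hn : 3 ≤ n) (hcop : Nat.Coprime k n) :
    (Exceeds k n ↔ 1 < k ∧ k ≡ 1 [MOD n]) ∧
    (¬ (1 < k ∧ k ≡ 1 [MOD n]) → ∀ A : Fin k → ℂ, IsMarkedBasicSetup k n A →
      ∃ ε₀ : ℝ, 0 < ε₀ ∧ ∀ ε : ℝ, 0 < ε → ε < ε₀ →
        ratioOf (shiftedUnion n A ε) ≤ 4 * Real.tan (Real.pi / n)) ∧
    (∃ A : Fin k → ℂ, IsMarkedBasicSetup k n A) := by
  have hpos : 1 < k ∧ k ≡ 1 [MOD n] → Exceeds k n := by
    rintro ⟨h1, h2⟩ A hA
    obtain ⟨δ, hδ, h⟩ := Metric.eventually_nhds_iff.1 (ratio_two h1 hn hcop hA)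
    refine ⟨δ, hδ, fun ε h0 h3 => ?_⟩
    refine (h (y := ε) ?_ h0.ne').2 h2
    rw [Real.dist_eq, sub_zero, abs_of_pos h0]; exact h3
  have hneg : ¬ (1 < k ∧ k ≡ 1 [MOD n]) → ∀ A : Fin k → ℂ, IsMarkedBasicSetup k n A →
      ∃ ε₀ : ℝ, 0 < ε₀ ∧ ∀ ε : ℝ, 0 < ε → ε < ε₀ →
        ratioOf (shiftedUnion n A ε) ≤ 4 * Real.tan (Real.pi / n) := by
    intro hc A hA
    rcases hk.eq_or_lt with h1 | h1
    · subst h1
      exact ⟨1, one_pos, fun ε _ _ => (ratio_one hn hA ε).le⟩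
    · have h2 : ¬ k ≡ 1 [MOD n] := fun h => hc ⟨h1, h⟩
      obtain ⟨δ, hδ, h⟩ := Metric.eventually_nhds_iff.1 (ratio_two h1 hn hcop hA)
      refine ⟨δ, hδ, fun ε h0 h3 => ?_⟩
      have h4 := h (y := ε) (by rw [Real.dist_eq, sub_zero, abs_of_pos h0]; exact h3) h0.ne'
      exact not_lt.1 fun h5 => h2 (h4.1 h5)
  have hex := exists_setup hk hn hcop
  refine ⟨⟨fun hE => ?_, hpos⟩, hneg, hex⟩
  by_contra hc
  obtain ⟨A, hA⟩ := hex
  obtain ⟨a, ha, h1⟩ := hE A hA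
  obtain ⟨b, hb, h2⟩ := hneg hc A hA
  have hm : 0 < min a b := lt_min ha hb
  have h3 := h1 (min a b / 2) (by linarith) (by have := min_le_left a b; linarith)
  have h4 := h2 (min a b / 2) (by linarith) (by have := min_le_right a b; linarith)
  linarith

end Pool.Agent.Results.MP_7297ca_co.ShiftedRatio
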